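import Mathlib

/-! Basic structure of beta designs. -/

open Finset

namespace Pool.Agent.H27B

/-- `Bl` is a family of at least two `k`-subsets of the finite set `α`, the largest size of the
intersection of two members is `d`, and every `(d + 2 i - 1)`-subset of `α` meets exactly one
member in at least `d + i` points. -/
structure IsBeta {α : Type*} [Fintype α] [DecidableEq α] (Bl : Finset (Finset α))
    (k d i : ℕ) : Prop where
  two : 2 ≤ Bl.card
  card : ∀ B ∈ Bl, B.card = k
  inter : ∀ B ∈ Bl, ∀ C ∈ Bl, B ≠ C → (B ∩ C).card ≤ d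
  att : ∃ B ∈ Bl, ∃ C ∈ Bl, B ≠ C ∧ (B ∩ C).card = d
  dk : d < k
  kv : k < Fintype.card α
  i1 : 1 ≤ i
  i2 : 2 * i ≤ Fintype.card α - d + 1
  beta : ∀ X : Finset α, X.card = d + 2 * i - 1 →
    ∃ B, (B ∈ Bl ∧ d + i ≤ (X ∩ B).card) ∧ ∀ C, (C ∈ Bl ∧ d + i ≤ (X ∩ C).card) → C = B

section
variable {α : Type*} [Fintype α] [DecidableEq α] {Bl : Finset (Finset α)} {k d i : ℕ}

/-- Inside a block, and for an `i`-set outside. -/
theorem IsBeta.inside (h : IsBeta Bl k d i) {B U : Finset α} (hB : B ∈ Bl) (hU : U.card = i)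
    (hUB : Disjoint U B) {R : Finset α} (hR : R ⊆ B) (hRc : R.card = d + i - 1) :
    ∃ C, (C ∈ Bl ∧ U ⊆ C ∧ (B ∩ C).card = d ∧ B ∩ C ⊆ R) ∧
      ∀ D, (D ∈ Bl ∧ U ⊆ D ∧ (B ∩ D).card = d ∧ B ∩ D ⊆ R) → D = C := by
  have hi1 := h.i1
  have hRU : Disjoint R U := Finset.disjoint_of_subset_left hR hUB.symm
  have hX : (R ∪ U).card = d + 2 * i - 1 := by
    rw [Finset.card_union_of_disjoint hRU, hRc, hU]; omega
  obtain ⟨C, ⟨hC, hCX⟩, huni⟩ := h.beta _ hX
  have hsplit : ∀ D : Finset α, ((R ∪ U) ∩ D).card = (R ∩ D).card + (U ∩ D).card := by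
    intro D
    rw [Finset.union_inter_distrib_right, Finset.card_union_of_disjoint]
    exact Finset.disjoint_of_subset_left Finset.inter_subset_left
      (Finset.disjoint_of_subset_right Finset.inter_subset_left hRU)
  have hCB : B ≠ C := by
    rintro rfl
    rw [hsplit] at hCX
    have h1 : (R ∩ B).card ≤ R.card := Finset.card_le_card Finset.inter_subset_left
    have h2 : U ∩ B = ∅ := Finset.disjoint_iff_inter_eq_empty.1 hUB
    rw [h2, Finset.card_empty] at hCX
    omega
  have h3 : (B ∩ C).card ≤ d := h.inter B hB C hC hCB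
  have h4 : R ∩ C ⊆ B ∩ C := Finset.inter_subset_inter_right hR
  have h5 : (R ∩ C).card ≤ (B ∩ C).card := Finset.card_le_card h4
  have h6 : (U ∩ C).card ≤ U.card := Finset.card_le_card Finset.inter_subset_left
  rw [hsplit] at hCX
  have h7 : (U ∩ C).card = U.card := by omega
  have h8 : U ⊆ C := by
    have := Finset.eq_of_subset_of_card_le (Finset.inter_subset_left : U ∩ C ⊆ U) h7.ge
    rw [← this]; exact Finset.inter_subset_right
  have h9 : (B ∩ C).card = d := by omega
  have h10 : R ∩ C = B ∩ C := Finset.eq_of_subset_of_card_le h4 (by omega)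
  refine ⟨C, ⟨hC, h8, h9, by rw [← h10]; exact Finset.inter_subset_left⟩, ?_⟩
  rintro D ⟨hD, hUD, hBD, hDR⟩
  apply huni D ⟨hD, ?_⟩
  rw [hsplit]
  have h11 : U ∩ D = U := Finset.inter_eq_left.2 hUD
  have h12 : B ∩ D ⊆ R ∩ D := Finset.subset_inter hDR Finset.inter_subset_right
  have h13 := Finset.card_le_card h12
  rw [h11, hU]
  omega

/-- The sets `B \ C` form a Steiner system. -/
theorem IsBeta.steiner (h : IsBeta Bl k d i) (hik : i < k - d) {B U : Finset α} (hB : B ∈ Bl)
    (hU : U.card = i) (hUB : Disjoint U B) {T : Finset α} (hT : T ⊆ B)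
    (hTc : T.card = k - d - i + 1) :
    ∃ C, (C ∈ Bl ∧ U ⊆ C ∧ (B ∩ C).card = d ∧ T ⊆ B \ C) ∧
      ∀ D, (D ∈ Bl ∧ U ⊆ D ∧ (B ∩ D).card = d ∧ T ⊆ B \ D) → D = C := by
  have hBk := h.card B hB
  have hR : (B \ T).card = d + i - 1 := by
    rw [Finset.card_sdiff_of_subset hT, hBk, hTc]
    omega
  have hiff : ∀ C : Finset α, B ∩ C ⊆ B \ T ↔ T ⊆ B \ C := by
    intro C
    constructor
    · intro hs x hx
      rw [Finset.mem_sdiff]
      refine ⟨hT hx, fun hxC => ?_⟩
      exact (Finset.mem_sdiff.1 (hs (Finset.mem_inter.2 ⟨hT hx, hxC⟩))).2 hx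
    · intro hs x hx
      rw [Finset.mem_inter] at hx
      rw [Finset.mem_sdiff]
      exact ⟨hx.1, fun hxT => (Finset.mem_sdiff.1 (hs hxT)).2 hx.2⟩
  obtain ⟨C, ⟨h1, h2, h3, h4⟩, huni⟩ := h.inside hB hU hUB Finset.sdiff_subset hR
  refine ⟨C, ⟨h1, h2, h3, (hiff C).1 h4⟩, ?_⟩
  rintro D ⟨g1, g2, g3, g4⟩
  exact huni D ⟨g1, g2, g3, (hiff D).2 g4⟩

/-- There are a block and an `i`-set outside. -/
theorem IsBeta.exists_U (h : IsBeta Bl k d i) (hik : i < k - d) :
    ∃ B ∈ Bl, ∃ U : Finset α, U.card = i ∧ Disjoint U B := by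
  obtain ⟨B, hB, C, hC, hne, hBC⟩ := h.att
  have h1 : (C \ B).card = k - d := by
    have := Finset.card_sdiff_add_card_inter C B
    rw [Finset.inter_comm, hBC, h.card C hC] at this
    omega
  obtain ⟨U, hU, hUc⟩ := Finset.exists_subset_card_eq (show i ≤ (C \ B).card by omega)
  exact ⟨B, hB, U, hUc, Finset.disjoint_of_subset_left hU Finset.sdiff_disjoint⟩

theorem IsBeta.dvd (h : IsBeta Bl k d i) (hik : i < k - d) : i ∣ d := by
  obtain ⟨B, hB, U, hU, hUB⟩ := h.exists_U hik
  have hi1 := h.i1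
  obtain ⟨S, hS, hSc⟩ := Finset.exists_subset_card_eq
    (show d + i ≤ B.card by rw [h.card B hB]; omega)
  set Cs := Bl.filter (fun C => U ⊆ C ∧ (B ∩ C).card = d ∧ B ∩ C ⊆ S) with hCs
  have hcov : S = Cs.biUnion (fun C => S \ C) := by
    ext s
    rw [Finset.mem_biUnion]
    constructor
    · intro hs
      have hR : (S.erase s).card = d + i - 1 := by rw [Finset.card_erase_of_mem hs, hSc]
      obtain ⟨C, ⟨h1, h2, h3, h4⟩, _⟩ := h.inside hB hU hUB ((Finset.erase_subset s S).trans hS) hR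
      refine ⟨C, Finset.mem_filter.2 ⟨h1, h2, h3, h4.trans (Finset.erase_subset s S)⟩, ?_⟩
      rw [Finset.mem_sdiff]
      refine ⟨hs, fun hsC => ?_⟩
      exact Finset.notMem_erase s S (h4 (Finset.mem_inter.2 ⟨hS hs, hsC⟩))
    · rintro ⟨C, _, hs⟩
      exact (Finset.mem_sdiff.1 hs).1
  have hcard : S.card = ∑ C ∈ Cs, (S \ C).card := by
    conv_lhs => rw [hcov]
    apply Finset.card_biUnion
    intro C hC D hD hCD
    rw [Finset.mem_coe, hCs, Finset.mem_filter] at hC hD
    show Disjoint (S \ C) (S \ D)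
    rw [Finset.disjoint_left]
    intro s hs hs'
    rw [Finset.mem_sdiff] at hs hs'
    apply hCD
    have hR : (S.erase s).card = d + i - 1 := by rw [Finset.card_erase_of_mem hs.1, hSc]
    obtain ⟨E, _, huni⟩ := h.inside hB hU hUB ((Finset.erase_subset s S).trans hS) hR
    have e1 := huni C ⟨hC.1, hC.2.1, hC.2.2.1, fun x hx => Finset.mem_erase.2
      ⟨fun e => hs.2 (e ▸ (Finset.mem_inter.1 hx).2), hC.2.2.2 hx⟩⟩
    have e2 := huni D ⟨hD.1, hD.2.1, hD.2.2.1, fun x hx => Finset.mem_erase.2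
      ⟨fun e => hs'.2 (e ▸ (Finset.mem_inter.1 hx).2), hD.2.2.2 hx⟩⟩
    rw [e1, e2]
  have hi : ∀ C ∈ Cs, (S \ C).card = i := by
    intro C hC
    rw [hCs, Finset.mem_filter] at hC
    have h1 : S ∩ C = B ∩ C := by
      apply Finset.Subset.antisymm (Finset.inter_subset_inter_right hS)
      exact Finset.subset_inter hC.2.2.2 Finset.inter_subset_right
    have := Finset.card_sdiff_add_card_inter S C
    rw [h1, hC.2.2.1, hSc] at this
    omega
  rw [Finset.sum_congr rfl hi, Finset.sum_const, smul_eq_mul, hSc] at hcard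
  have : i ∣ d + i := ⟨Cs.card, by rw [hcard, mul_comm]⟩
  exact (Nat.dvd_add_left (dvd_refl i)).1 this

/-- The inequality of Tits for the derived Steiner system. -/
theorem IsBeta.tits (h : IsBeta Bl k d i) (hd : 0 < d) (hik : i < k - d) :
    i * (k - d - i + 2) ≤ k := by
  classical
  obtain ⟨B, hB, U, hU, hUB⟩ := h.exists_U hik
  have hi1 := h.i1
  have hBk := h.card B hB
  set t := k - d - i + 1 with ht
  obtain ⟨T₁, hT₁, hT₁c⟩ := Finset.exists_subset_card_eq
    (show t ≤ B.card by rw [hBk]; omega)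
  obtain ⟨C₀, ⟨hC₀, hUC₀, hC₀d, hT₀⟩, huni₀⟩ := h.steiner hik hB hU hUB hT₁ hT₁c
  obtain ⟨x, hx⟩ : (B ∩ C₀).Nonempty := by rw [← Finset.card_pos, hC₀d]; exact hd
  rw [Finset.mem_inter] at hx
  have hxT : x ∉ T₁ := fun hxT => (Finset.mem_sdiff.1 (hT₀ hxT)).2 hx.2
  set S := insert x T₁ with hS
  have hSc : S.card = t + 1 := by rw [hS, Finset.card_insert_of_notMem hxT, hT₁c]
  have hSB : S ⊆ B := Finset.insert_subset hx.1 hT₁
  have hex : ∀ y : α, ∃ C : Finset α, y ∈ S → C ∈ Bl ∧ U ⊆ C ∧ (B ∩ C).card = d ∧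
      S.erase y ⊆ B \ C := by
    intro y
    by_cases hy : y ∈ S
    · obtain ⟨C, hC, _⟩ := h.steiner hik hB hU hUB ((Finset.erase_subset y S).trans hSB)
        (by rw [Finset.card_erase_of_mem hy, hSc]; omega)
      exact ⟨C, fun _ => hC⟩
    · exact ⟨∅, fun hh => absurd hh hy⟩
  choose g hg using hex
  have hyC : ∀ y ∈ S, y ∈ g y := by
    intro y hy
    by_contra hyn
    obtain ⟨g1, g2, g3, g4⟩ := hg y hy
    have hSg : S ⊆ B \ g y := by
      intro z hz
      by_cases hzy : z = y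
      · subst hzy
        exact Finset.mem_sdiff.2 ⟨hSB hz, hyn⟩
      · exact g4 (Finset.mem_erase.2 ⟨hzy, hz⟩)
    have e := huni₀ (g y) ⟨g1, g2, g3, (Finset.subset_insert x T₁).trans hSg⟩
    have := hSg (Finset.mem_insert_self x T₁)
    rw [e, Finset.mem_sdiff] at this
    exact this.2 hx.2
  -- the sets `(B \ g y) \ S` are disjoint
  have hQ : ∀ y ∈ S, ((B \ g y) \ S).card = i - 1 := by
    intro y hy
    obtain ⟨g1, g2, g3, g4⟩ := hg y hy
    have e1 : (B \ g y) ∩ S = S.erase y := by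
      apply Finset.Subset.antisymm
      · intro z hz
        rw [Finset.mem_inter, Finset.mem_sdiff] at hz
        exact Finset.mem_erase.2 ⟨fun e => hz.1.2 (e ▸ hyC y hy), hz.2⟩
      · exact Finset.subset_inter g4 (Finset.erase_subset y S)
    have e2 := Finset.card_sdiff_add_card_inter (B \ g y) S
    rw [e1, Finset.card_erase_of_mem hy, hSc] at e2
    have e3 := Finset.card_sdiff_add_card_inter B (g y)
    rw [g3, hBk] at e3
    omega
  have hdisj : ∀ y ∈ S, ∀ z ∈ S, y ≠ z → Disjoint ((B \ g y) \ S) ((B \ g z) \ S) := by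
    intro y hy z hz hyz
    rw [Finset.disjoint_left]
    intro w hw hw'
    obtain ⟨g1, g2, g3, g4⟩ := hg y hy
    obtain ⟨f1, f2, f3, f4⟩ := hg z hz
    rw [Finset.mem_sdiff] at hw hw'
    -- the set `(S \ {y, z}) ∪ {w}`
    have hT : insert w ((S.erase y).erase z) ⊆ B \ g y := by
      apply Finset.insert_subset hw.1
      exact (Finset.erase_subset z _).trans g4
    have hT' : insert w ((S.erase y).erase z) ⊆ B \ g z := by
      apply Finset.insert_subset hw'.1
      intro a ha
      rw [Finset.mem_erase, Finset.mem_erase] at ha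
      exact f4 (Finset.mem_erase.2 ⟨ha.1, ha.2.2⟩)
    have hwn : w ∉ (S.erase y).erase z := fun hh =>
      hw.2 (Finset.mem_of_mem_erase (Finset.mem_of_mem_erase hh))
    have hTc : (insert w ((S.erase y).erase z)).card = t := by
      rw [Finset.card_insert_of_notMem hwn, Finset.card_erase_of_mem, Finset.card_erase_of_mem hy,
        hSc]
      · omega
      · exact Finset.mem_erase.2 ⟨Ne.symm hyz, hz⟩
    obtain ⟨E, _, huni⟩ := h.steiner hik hB hU hUB
      (hT.trans Finset.sdiff_subset) hTc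
    have e1 := huni (g y) ⟨g1, g2, g3, hT⟩
    have e2 := huni (g z) ⟨f1, f2, f3, hT'⟩
    have h1 : z ∈ g y := by rw [e1, ← e2]; exact hyC z hz
    exact (Finset.mem_sdiff.1 (g4 (Finset.mem_erase.2 ⟨Ne.symm hyz, hz⟩))).2 h1
  have hall : S ∪ S.biUnion (fun y => (B \ g y) \ S) ⊆ B := by
    apply Finset.union_subset hSB
    intro a ha
    rw [Finset.mem_biUnion] at ha
    obtain ⟨y, _, ha⟩ := ha
    exact (Finset.mem_sdiff.1 (Finset.mem_sdiff.1 ha).1).1
  have hc := Finset.card_le_card hall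
  rw [Finset.card_union_of_disjoint, Finset.card_biUnion hdisj, Finset.sum_congr rfl hQ,
    Finset.sum_const, smul_eq_mul, hSc, hBk] at hc
  · obtain ⟨j, rfl⟩ : ∃ j, i = j + 1 := ⟨i - 1, by omega⟩
    have e : j + 1 - 1 = j := by omega
    rw [e] at hc
    have e2 : k - d - (j + 1) + 2 = t + 1 := by omega
    rw [e2]
    nlinarith
  · rw [Finset.disjoint_right]
    intro a ha
    rw [Finset.mem_biUnion] at ha
    obtain ⟨y, _, ha⟩ := ha
    exact (Finset.mem_sdiff.1 ha).2

/-- The upper bound of Noda. -/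
theorem IsBeta.noda (h : IsBeta Bl k d i) (hik : i < k - d) :
    (i - 1) * Fintype.card α ≤ (d + 2 * i - 2) * (k - d) := by
  classical
  obtain ⟨B, hB, U, hU, hUB⟩ := h.exists_U hik
  have hi1 := h.i1
  have hBk := h.card B hB
  obtain ⟨R, hR, hRc⟩ := Finset.exists_subset_card_eq
    (show d + i - 1 ≤ B.card by rw [hBk]; omega)
  obtain ⟨W, hW, hWc⟩ := Finset.exists_subset_card_eq (show i - 1 ≤ U.card by omega)
  have hWB : Disjoint W B := Finset.disjoint_of_subset_left hW hUB
  have hRW : Disjoint R W := Finset.disjoint_of_subset_left hR hWB.symm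
  set Y := R ∪ W with hY
  have hYc : Y.card = d + 2 * i - 2 := by
    rw [hY, Finset.card_union_of_disjoint hRW, hRc, hWc]; omega
  have hle : ∀ C ∈ Bl, (Y ∩ C).card ≤ d + i - 1 := by
    intro C hC
    rw [hY, Finset.union_inter_distrib_right]
    refine (Finset.card_union_le _ _).trans ?_
    by_cases hCB : B = C
    · subst hCB
      have h2 : W ∩ B = ∅ := Finset.disjoint_iff_inter_eq_empty.1 hWB
      have h1 : (R ∩ B).card ≤ R.card := Finset.card_le_card Finset.inter_subset_left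
      rw [h2, Finset.card_empty]
      omega
    · have h3 := h.inter B hB C hC hCB
      have h4 : (R ∩ C).card ≤ (B ∩ C).card :=
        Finset.card_le_card (Finset.inter_subset_inter_right hR)
      have h6 : (W ∩ C).card ≤ W.card := Finset.card_le_card Finset.inter_subset_left
      omega
  set N := Bl.filter (fun C => (Y ∩ C).card = d + i - 1) with hN
  have hins : ∀ p ∉ Y, ∀ C : Finset α, (insert p Y ∩ C).card =
      (Y ∩ C).card + (if p ∈ C then 1 else 0) := by
    intro p hp C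
    by_cases hpC : p ∈ C
    · rw [Finset.insert_inter_of_mem hpC, Finset.card_insert_of_notMem, if_pos hpC]
      exact fun hh => hp (Finset.mem_inter.1 hh).1
    · rw [Finset.insert_inter_of_notMem hpC, if_neg hpC, add_zero]
  have hcov : Finset.univ \ Y = N.biUnion (fun C => C \ Y) := by
    ext p
    rw [Finset.mem_sdiff, Finset.mem_biUnion]
    constructor
    · rintro ⟨_, hp⟩
      obtain ⟨C, ⟨hC, hCX⟩, _⟩ := h.beta (insert p Y)
        (by rw [Finset.card_insert_of_notMem hp, hYc]; omega)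
      rw [hins p hp] at hCX
      have := hle C hC
      by_cases hpC : p ∈ C
      · rw [if_pos hpC] at hCX
        exact ⟨C, Finset.mem_filter.2 ⟨hC, by omega⟩, Finset.mem_sdiff.2 ⟨hpC, hp⟩⟩
      · rw [if_neg hpC] at hCX
        omega
    · rintro ⟨C, _, hp⟩
      exact ⟨Finset.mem_univ _, (Finset.mem_sdiff.1 hp).2⟩
  have hNcard : Fintype.card α - (d + 2 * i - 2) = N.card * (k - d - i + 1) := by
    rw [← hYc, ← Finset.card_univ, ← Finset.card_sdiff_of_subset (Finset.subset_univ Y), hcov,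
      Finset.card_biUnion]
    · have hc : ∀ C ∈ N, (C \ Y).card = k - d - i + 1 := by
        intro C hC
        rw [hN, Finset.mem_filter] at hC
        have := Finset.card_sdiff_add_card_inter C Y
        rw [Finset.inter_comm, hC.2, h.card C hC.1] at this
        omega
      rw [Finset.sum_congr rfl hc, Finset.sum_const, smul_eq_mul]
    · intro C hC D hD hCD
      rw [Finset.mem_coe, hN, Finset.mem_filter] at hC hD
      show Disjoint (C \ Y) (D \ Y)
      rw [Finset.disjoint_left]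
      intro p hp hp'
      rw [Finset.mem_sdiff] at hp hp'
      obtain ⟨E, _, huni⟩ := h.beta (insert p Y)
        (by rw [Finset.card_insert_of_notMem hp.2, hYc]; omega)
      apply hCD
      rw [huni C ⟨hC.1, by rw [hins p hp.2, if_pos hp.1, hC.2]; omega⟩,
        huni D ⟨hD.1, by rw [hins p hp.2, if_pos hp'.1, hD.2]; omega⟩]
  have hsmall : N.card * (i - 1) ≤ d + 2 * i - 2 := by
    rw [← hYc]
    have hsub : N.biUnion (fun C => Y \ C) ⊆ Y := by
      intro a ha
      rw [Finset.mem_biUnion] at ha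
      obtain ⟨C, _, ha⟩ := ha
      exact (Finset.mem_sdiff.1 ha).1
    have hc := Finset.card_le_card hsub
    rw [Finset.card_biUnion] at hc
    · have hc2 : ∀ C ∈ N, (Y \ C).card = i - 1 := by
        intro C hC
        rw [hN, Finset.mem_filter] at hC
        have := Finset.card_sdiff_add_card_inter Y C
        rw [hC.2, hYc] at this
        omega
      rw [Finset.sum_congr rfl hc2, Finset.sum_const, smul_eq_mul] at hc
      exact hc
    · intro C hC D hD hCD
      rw [Finset.mem_coe, hN, Finset.mem_filter] at hC hD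
      show Disjoint (Y \ C) (Y \ D)
      have h1 := h.inter C hC.1 D hD.1 hCD
      have h2 : ((Y ∩ C) ∩ (Y ∩ D)).card ≤ (C ∩ D).card := by
        apply Finset.card_le_card
        intro a ha
        rw [Finset.mem_inter, Finset.mem_inter, Finset.mem_inter] at ha
        exact Finset.mem_inter.2 ⟨ha.1.2, ha.2.2⟩
      have h3 := Finset.card_union_add_card_inter (Y ∩ C) (Y ∩ D)
      have h4 : (Y ∩ C) ∪ (Y ∩ D) ⊆ Y :=
        Finset.union_subset Finset.inter_subset_left Finset.inter_subset_left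
      have h5 : (Y ∩ C) ∪ (Y ∩ D) = Y := Finset.eq_of_subset_of_card_le h4 (by omega)
      rw [Finset.disjoint_left]
      intro a ha ha'
      rw [Finset.mem_sdiff] at ha ha'
      have := ha.1
      rw [← h5, Finset.mem_union, Finset.mem_inter, Finset.mem_inter] at this
      rcases this with h6 | h6
      · exact ha.2 h6.2
      · exact ha'.2 h6.2
  have hYv : d + 2 * i - 2 ≤ Fintype.card α := by rw [← hYc]; exact Finset.card_le_univ Y
  generalize Fintype.card α = v at *
  obtain ⟨j, rfl⟩ : ∃ j, i = j + 1 := ⟨i - 1, by omega⟩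
  have e0 : j + 1 - 1 = j := by omega
  rw [e0] at hsmall ⊢
  set m := k - d - (j + 1) + 1 with hm
  have e1 : k - d = m + j := by omega
  rw [e1]
  set M := d + 2 * (j + 1) - 2 with hM
  have e2 : v = M + N.card * m := by omega
  rw [e2]
  calc j * (M + N.card * m) = j * M + (N.card * j) * m := by ring
    _ ≤ j * M + M * m := Nat.add_le_add_left (Nat.mul_le_mul_right _ hsmall) _
    _ = M * (m + j) := by ring

theorem IsBeta.main (h : IsBeta Bl k d i) (hd : 0 < d) (hi : 1 < i) (hik : i < k - d) :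
    i ∣ d ∧ 2 * i ≤ d ∧ k ≤ 2 * d ∧ Fintype.card α ≤ d * (d + 2) := by
  have h1 := h.dvd hik
  have h2 := h.tits hd hik
  have h3 := h.noda hik
  generalize Fintype.card α = v at *
  obtain ⟨m, rfl⟩ := h1
  have hm : 1 ≤ m := Nat.pos_of_ne_zero (by rintro rfl; simp at hd)
  have hkd : k ≤ 2 * (i * m) := by
    obtain ⟨j, rfl⟩ : ∃ j, i = j + 2 := ⟨i - 2, by omega⟩
    obtain ⟨a, ha⟩ : ∃ a, k = (j + 2) * m + (j + 2) + 1 + a :=
      ⟨k - ((j + 2) * m + (j + 2) + 1), by omega⟩
    have e1 : k - (j + 2) * m - (j + 2) + 2 = a + 3 := by omega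
    rw [e1] at h2
    -- `(j + 2) (a + 3) ≤ (j + 2) m + (j + 2) + 1 + a`
    rw [ha] at h2 ⊢
    -- `a (j + 1) ≤ (j + 2) (m - 2) + 1`
    obtain ⟨n, rfl⟩ : ∃ n, m = n + 1 := ⟨m - 1, by omega⟩
    nlinarith
  have hik' : i * m + i + 1 ≤ k := by omega
  have hm2 : 2 ≤ m := by
    by_contra hcon
    have : m = 1 := by omega
    subst this
    omega
  refine ⟨Dvd.intro _ rfl, by nlinarith, hkd, ?_⟩
  -- the bound for `v`
  obtain ⟨j, rfl⟩ : ∃ j, i = j + 2 := ⟨i - 2, by omega⟩
  have e1 : j + 2 - 1 = j + 1 := by omega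
  have e2 : (j + 2) * m + 2 * (j + 2) - 2 = (j + 2) * m + 2 * (j + 1) := by omega
  rw [e1, e2] at h3
  set D := (j + 2) * m with hD
  have h4 : k - D ≤ D := by omega
  have h5 : (D + 2 * (j + 1)) * (k - D) ≤ (D + 2 * (j + 1)) * D := Nat.mul_le_mul_left _ h4
  have h6 : (j + 1) * v ≤ (j + 1) * (D * (D + 2)) := by nlinarith [Nat.zero_le (j * D * D)]
  exact Nat.le_of_mul_le_mul_left h6 (by omega)

end

end Pool.Agent.H27B
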