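import Pool.Agent.H27B.Beta

/-! The complementary design. -/

open Finset

namespace Pool.Agent.H27B

section
variable {α : Type*} [Fintype α] [DecidableEq α] {Bl : Finset (Finset α)} {k d i : ℕ}

theorem card_compl_inter_compl (B C : Finset α) :
    (Bᶜ ∩ Cᶜ).card + (B.card + C.card) = Fintype.card α + (B ∩ C).card := by
  rw [← Finset.compl_union]
  have h1 := Finset.card_union_add_card_inter B C
  have h2 := Finset.card_compl_add_card (B ∪ C)
  omega

theorem IsBeta.compl (h : IsBeta Bl k d i) (hik : i < k - d) :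
    IsBeta (Bl.image (fun B => Bᶜ)) (Fintype.card α - k) (Fintype.card α + d - 2 * k)
      (k - d - i + 1) := by
  have hinj : Function.Injective (fun B : Finset α => Bᶜ) := compl_injective
  have hdk := h.dk
  have hkv := h.kv
  have hi1 := h.i1
  have hv : 2 * k ≤ Fintype.card α + d := by
    obtain ⟨B, hB, C, hC, hne, hBC⟩ := h.att
    have := card_compl_inter_compl B C
    rw [h.card B hB, h.card C hC, hBC] at this
    omega
  refine ⟨?_, ?_, ?_, ?_, by omega, by omega, by omega, by omega, ?_⟩
  · rw [Finset.card_image_of_injective _ hinj]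
    exact h.two
  · intro B hB
    rw [Finset.mem_image] at hB
    obtain ⟨C, hC, rfl⟩ := hB
    rw [Finset.card_compl, h.card C hC]
  · intro B hB C hC hne
    rw [Finset.mem_image] at hB hC
    obtain ⟨B, hB, rfl⟩ := hB
    obtain ⟨C, hC, rfl⟩ := hC
    have h1 := h.inter B hB C hC (fun e => hne (by rw [e]))
    have h2 := card_compl_inter_compl B C
    rw [h.card B hB, h.card C hC] at h2
    omega
  · obtain ⟨B, hB, C, hC, hne, hBC⟩ := h.att
    refine ⟨Bᶜ, Finset.mem_image_of_mem _ hB, Cᶜ, Finset.mem_image_of_mem _ hC,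
      fun e => hne (hinj e), ?_⟩
    have h2 := card_compl_inter_compl B C
    rw [h.card B hB, h.card C hC, hBC] at h2
    omega
  · intro X hX
    have hXc : Xᶜ.card = d + 2 * i - 1 := by
      rw [Finset.card_compl, hX]
      omega
    have hiff : ∀ B ∈ Bl, Fintype.card α + d - 2 * k + (k - d - i + 1) ≤ (X ∩ Bᶜ).card ↔
        d + i ≤ (Xᶜ ∩ B).card := by
      intro B hB
      have h2 := card_compl_inter_compl Xᶜ B
      rw [compl_compl, hXc, h.card B hB] at h2
      omega
    obtain ⟨B, ⟨hB, hBX⟩, huni⟩ := h.beta _ hXc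
    refine ⟨Bᶜ, ⟨Finset.mem_image_of_mem _ hB, (hiff B hB).2 hBX⟩, ?_⟩
    rintro C ⟨hC, hCX⟩
    rw [Finset.mem_image] at hC
    obtain ⟨C, hC, rfl⟩ := hC
    rw [huni C ⟨hC, (hiff C hC).1 hCX⟩]

/-- Two blocks do not cover all points. -/
theorem IsBeta.dpos (h : IsBeta Bl k d i) (hd : 0 < d) (hik : i < k - d) :
    2 * k < Fintype.card α + d := by
  classical
  obtain ⟨B, hB, U, hU, hUB⟩ := h.exists_U hik
  have hi1 := h.i1
  have hBk := h.card B hB
  obtain ⟨R, hR, hRc⟩ := Finset.exists_subset_card_eq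
    (show d + i - 1 ≤ B.card by rw [hBk]; omega)
  obtain ⟨C, ⟨hC, hUC, hCd, hCR⟩, _⟩ := h.inside hB hU hUB hR hRc
  obtain ⟨x, hx⟩ : (B ∩ C).Nonempty := by rw [← Finset.card_pos, hCd]; exact hd
  -- a set `R'` of the same size which avoids `x`
  have hBx : d + i - 1 ≤ (B.erase x).card := by
    rw [Finset.card_erase_of_mem (Finset.mem_inter.1 hx).1, hBk]; omega
  obtain ⟨R', hR', hRc'⟩ := Finset.exists_subset_card_eq hBx
  obtain ⟨D, ⟨hD, hUD, hDd, hDR⟩, _⟩ := h.inside hB hU hUB
    (hR'.trans (Finset.erase_subset x B)) hRc'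
  have hCD : C ≠ D := by
    rintro rfl
    exact Finset.notMem_erase x B (hR' (hDR hx))
  have hBD : D ≠ B := by
    rintro rfl
    rw [Finset.inter_self, h.card D hD] at hDd
    have := h.dk
    omega
  have hBC : C ≠ B := by
    rintro rfl
    rw [Finset.inter_self, h.card C hC] at hCd
    have := h.dk
    omega
  have h1 := h.inter C hC D hD hCD
  -- outside `B` the blocks `C` and `D` have `k - d` points each
  have c1 := Finset.card_sdiff_add_card_inter C B
  have c2 := Finset.card_sdiff_add_card_inter D B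
  rw [Finset.inter_comm, hCd, h.card C hC] at c1
  rw [Finset.inter_comm, hDd, h.card D hD] at c2
  have hv : 2 * k ≤ Fintype.card α + d := by
    obtain ⟨B, hB, C, hC, hne, hBC⟩ := h.att
    have := card_compl_inter_compl B C
    rw [h.card B hB, h.card C hC, hBC] at this
    omega
  by_contra hcon
  push Not at hcon
  have hveq : Fintype.card α + d = 2 * k := le_antisymm hcon hv
  -- then `C \ B = D \ B`
  have c3 : Bᶜ.card = Fintype.card α - k := by rw [Finset.card_compl, hBk]
  have hkv := h.kv
  have e1 : C \ B = Bᶜ := by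
    apply Finset.eq_of_subset_of_card_le
    · intro a ha
      rw [Finset.mem_compl]
      exact (Finset.mem_sdiff.1 ha).2
    · omega
  have e2 : D \ B = Bᶜ := by
    apply Finset.eq_of_subset_of_card_le
    · intro a ha
      rw [Finset.mem_compl]
      exact (Finset.mem_sdiff.1 ha).2
    · omega
  have hdk := h.dk
  -- so `C ∩ D` contains `C \ B`, and the blocks `C` through `U` are too close
  have e3 : C \ B ⊆ C ∩ D := by
    intro a ha
    have : a ∈ D \ B := by rw [e2, ← e1]; exact ha
    exact Finset.mem_inter.2 ⟨(Finset.mem_sdiff.1 ha).1, (Finset.mem_sdiff.1 this).1⟩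
  -- take the third block for a set avoiding nothing: use the complement in `B`
  have hlt : k - d ≤ d := by
    have := Finset.card_le_card e3
    omega
  -- the complementary family would consist of pairwise disjoint sets
  have hdis : ∀ E ∈ Bl, ∀ F ∈ Bl, E ≠ F → E ∪ F = Finset.univ ∧ (E ∩ F).card = d := by
    intro E hE F hF hEF
    have g1 := Finset.card_union_add_card_inter E F
    have g2 := h.inter E hE F hF hEF
    have g3 := Finset.card_le_univ (E ∪ F)
    rw [h.card E hE, h.card F hF] at g1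
    refine ⟨(Finset.card_eq_iff_eq_univ _).1 (by omega), by omega⟩
  -- three blocks `B, C, D`; a bad set
  have hun := (hdis C hC D hD hCD).1
  -- choose `X` by complement: `i'` = `k - d - i + 1`
  set m := k - d - i with hm
  have hm1 : 1 ≤ m := by omega
  -- `Xc` has `m` points outside `C`, `m` points outside `D`, one point outside `B`
  have cC : Cᶜ.card = Fintype.card α - k := by rw [Finset.card_compl, h.card C hC]
  have cD : Dᶜ.card = Fintype.card α - k := by rw [Finset.card_compl, h.card D hD]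
  obtain ⟨P, hP, hPc⟩ := Finset.exists_subset_card_eq (show m ≤ Cᶜ.card by omega)
  obtain ⟨Q, hQ, hQc⟩ := Finset.exists_subset_card_eq (show m ≤ Dᶜ.card by omega)
  obtain ⟨O, hO, hOc⟩ := Finset.exists_subset_card_eq (show 1 ≤ Bᶜ.card by omega)
  have dPQ : Disjoint P Q := by
    rw [Finset.disjoint_left]
    intro a ha ha'
    have g1 := Finset.mem_compl.1 (hP ha)
    have g2 := Finset.mem_compl.1 (hQ ha')
    have : a ∈ C ∪ D := by rw [hun]; exact Finset.mem_univ _
    rcases Finset.mem_union.1 this with g | g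
    · exact g1 g
    · exact g2 g
  have dPO : Disjoint P O := by
    rw [Finset.disjoint_left]
    intro a ha ha'
    have g1 := Finset.mem_compl.1 (hP ha)
    have g2 := Finset.mem_compl.1 (hO ha')
    have : a ∈ C ∪ B := by rw [(hdis C hC B hB hBC).1]; exact Finset.mem_univ _
    rcases Finset.mem_union.1 this with g | g
    · exact g1 g
    · exact g2 g
  have dQO : Disjoint Q O := by
    rw [Finset.disjoint_left]
    intro a ha ha'
    have g1 := Finset.mem_compl.1 (hQ ha)
    have g2 := Finset.mem_compl.1 (hO ha')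
    have : a ∈ D ∪ B := by rw [(hdis D hD B hB hBD).1]; exact Finset.mem_univ _
    rcases Finset.mem_union.1 this with g | g
    · exact g1 g
    · exact g2 g
  set W := (P ∪ Q) ∪ O with hW
  have dPQO : Disjoint (P ∪ Q) O := Finset.disjoint_union_left.2 ⟨dPO, dQO⟩
  have hWc : W.card = 2 * m + 1 := by
    rw [hW, Finset.card_union_of_disjoint dPQO, Finset.card_union_of_disjoint dPQ]
    omega
  have hXc : Wᶜ.card = d + 2 * i - 1 := by
    rw [Finset.card_compl, hWc]
    omega
  obtain ⟨E, ⟨hE, hEX⟩, _⟩ := h.beta _ hXc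
  -- the block `E` misses at least `m + 1` points of `W`
  have hEW : m + 1 ≤ (W ∩ Eᶜ).card := by
    have h2 := card_compl_inter_compl Wᶜ E
    rw [compl_compl, hXc, h.card E hE] at h2
    omega
  have key : (W ∩ Eᶜ).card ≤ m := by
    have hmis : ∀ F ∈ Bl, ∀ G : Finset α, G ⊆ Fᶜ → F ≠ E → G ∩ Eᶜ = ∅ := by
      intro F hF G hG hFE
      rw [Finset.eq_empty_iff_forall_notMem]
      intro a ha
      rw [Finset.mem_inter] at ha
      have g1 := Finset.mem_compl.1 (hG ha.1)
      have g2 := Finset.mem_compl.1 ha.2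
      have : a ∈ F ∪ E := by rw [(hdis F hF E hE hFE).1]; exact Finset.mem_univ _
      rcases Finset.mem_union.1 this with g | g
      · exact g1 g
      · exact g2 g
    have hsum : (W ∩ Eᶜ).card ≤ (P ∩ Eᶜ).card + (Q ∩ Eᶜ).card + (O ∩ Eᶜ).card := by
      rw [hW, Finset.union_inter_distrib_right, Finset.union_inter_distrib_right]
      exact (Finset.card_union_le _ _).trans (Nat.add_le_add_right (Finset.card_union_le _ _) _)
    have p1 : (P ∩ Eᶜ).card ≤ m := by
      rw [← hPc]; exact Finset.card_le_card Finset.inter_subset_left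
    have q1 : (Q ∩ Eᶜ).card ≤ m := by
      rw [← hQc]; exact Finset.card_le_card Finset.inter_subset_left
    have o1 : (O ∩ Eᶜ).card ≤ 1 := by
      rw [← hOc]; exact Finset.card_le_card Finset.inter_subset_left
    by_cases hEC : C = E
    · have z1 := hmis D hD Q hQ (fun e => hCD (hEC.trans e.symm))
      have z2 := hmis B hB O hO (fun e => hBC (hEC.trans e.symm))
      rw [z1, z2, Finset.card_empty] at hsum
      omega
    · have z0 := hmis C hC P hP hEC
      by_cases hED : D = E
      · have z2 := hmis B hB O hO (fun e => hBD (hED.trans e.symm))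
        rw [z0, z2, Finset.card_empty] at hsum
        omega
      · have z1 := hmis D hD Q hQ hED
        rw [z0, z1, Finset.card_empty] at hsum
        omega
  omega

theorem IsBeta.hv (h : IsBeta Bl k d i) : 2 * k ≤ Fintype.card α + d := by
  obtain ⟨B, hB, C, hC, hne, hBC⟩ := h.att
  have := card_compl_inter_compl B C
  rw [h.card B hB, h.card C hC, hBC] at this
  omega

theorem IsBeta.steiner2 (h : IsBeta Bl k d i) (hi : 1 < i) (hik : i < k - d) {B U : Finset α}
    (hB : B ∈ Bl) (hU : U.card = k - d - i + 1) (hUB : U ⊆ B) {T : Finset α}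
    (hT : Disjoint T B) (hTc : T.card = i) :
    ∃ C, (C ∈ Bl ∧ Disjoint U C ∧ (B ∩ C).card = d ∧ T ⊆ C \ B) ∧
      ∀ D, (D ∈ Bl ∧ Disjoint U D ∧ (B ∩ D).card = d ∧ T ⊆ D \ B) → D = C := by
  have hv := h.hv
  have hkv := h.kv
  have hc := h.compl hik
  have hik' : k - d - i + 1 < Fintype.card α - k - (Fintype.card α + d - 2 * k) := by omega
  have hiff : ∀ C ∈ Bl, (Bᶜ ∩ Cᶜ).card = Fintype.card α + d - 2 * k ↔ (B ∩ C).card = d := by
    intro C hC
    have h2 := card_compl_inter_compl B C
    rw [h.card B hB, h.card C hC] at h2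
    omega
  have hsd : ∀ C : Finset α, Bᶜ \ Cᶜ = C \ B := by
    intro C
    ext a
    simp only [Finset.mem_sdiff, Finset.mem_compl, not_not]
    tauto
  have hdis : ∀ C : Finset α, U ⊆ Cᶜ ↔ Disjoint U C := by
    intro C
    rw [Finset.disjoint_left]
    constructor
    · intro hs a ha
      exact Finset.mem_compl.1 (hs ha)
    · intro hs a ha
      exact Finset.mem_compl.2 (hs ha)
  have hUd : Disjoint U Bᶜ := by
    rw [Finset.disjoint_left]
    intro a ha ha'
    exact Finset.mem_compl.1 ha' (hUB ha)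
  have hTB : T ⊆ Bᶜ := by
    intro a ha
    rw [Finset.mem_compl]
    exact Finset.disjoint_left.1 hT ha
  obtain ⟨C', ⟨g1, g2, g3, g4⟩, huni⟩ := hc.steiner hik' (Finset.mem_image_of_mem _ hB) hU hUd hTB
    (by rw [hTc]; omega)
  rw [Finset.mem_image] at g1
  obtain ⟨C, hC, rfl⟩ := g1
  refine ⟨C, ⟨hC, (hdis C).1 g2, (hiff C hC).1 g3, by rw [← hsd]; exact g4⟩, ?_⟩
  rintro D ⟨hD, f2, f3, f4⟩
  have := huni Dᶜ ⟨Finset.mem_image_of_mem _ hD, (hdis D).2 f2, (hiff D hD).2 f3,
    by rw [hsd]; exact f4⟩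
  exact compl_injective this

theorem IsBeta.main2 (h : IsBeta Bl k d i) (hd : 0 < d) (hi : 1 < i) (hik : i < k - d) :
    (i ∣ d ∧ (k - d - i + 1) ∣ (Fintype.card α + d - 2 * k)) ∧
    (i * (k - d - i + 2) ≤ k ∧ (k - d - i + 1) * (i + 1) ≤ Fintype.card α - k) ∧
    (k ≤ 2 * d ∧ 3 * k ≤ Fintype.card α + 2 * d) ∧ Fintype.card α ≤ d * (d + 2) := by
  obtain ⟨h1, h2, h3, h4⟩ := h.main hd hi hik
  have hv := h.hv
  have hkv := h.kv
  have hdp := h.dpos hd hik
  have hc := h.compl hik
  have hik' : k - d - i + 1 < Fintype.card α - k - (Fintype.card α + d - 2 * k) := by omega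
  obtain ⟨f1, f2, f3, f4⟩ := hc.main (by omega) (by omega) hik'
  have f5 := hc.tits (by omega) hik'
  have e : Fintype.card α - k - (Fintype.card α + d - 2 * k) - (k - d - i + 1) + 2 = i + 1 := by
    omega
  rw [e] at f5
  exact ⟨⟨h1, f1⟩, ⟨h.tits hd hik, f5⟩, ⟨h3, by omega⟩, h4⟩

end

end Pool.Agent.H27B
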