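import Pool.Agent.H27B.Dual

/-! The case `d = 4`. -/

open Finset

namespace Pool.Agent.H27B

section
variable {α : Type*} [Fintype α] [DecidableEq α] {Bl : Finset (Finset α)} {k d i : ℕ}

theorem count_near (B : Finset α) (n : ℕ) :
    ((powersetCard (n + 1) (univ : Finset α)).filter (fun X => n ≤ (X ∩ B).card)).card =
      (B.card).choose (n + 1) + (B.card).choose n * (Fintype.card α - B.card) := by
  have hset : (powersetCard (n + 1) (univ : Finset α)).filter (fun X => n ≤ (X ∩ B).card) =
      powersetCard (n + 1) B ∪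
        (powersetCard n B ×ˢ Bᶜ).image (fun q => insert q.2 q.1) := by
    ext X
    rw [Finset.mem_filter, Finset.mem_union, Finset.mem_powersetCard, Finset.mem_powersetCard,
      Finset.mem_image]
    constructor
    · rintro ⟨⟨_, hX⟩, hn⟩
      have h1 := Finset.card_sdiff_add_card_inter X B
      rcases Nat.lt_or_ge n (X ∩ B).card with h2 | h2
      · left
        refine ⟨?_, hX⟩
        have h3 : (X \ B).card = 0 := by omega
        rw [Finset.card_eq_zero, Finset.sdiff_eq_empty_iff_subset] at h3
        exact h3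
      · right
        have h3 : (X \ B).card = 1 := by omega
        obtain ⟨p, hp⟩ := Finset.card_eq_one.1 h3
        refine ⟨(X ∩ B, p), ?_, ?_⟩
        · rw [Finset.mem_product]
          refine ⟨Finset.mem_powersetCard.2 ⟨Finset.inter_subset_right, by show (X ∩ B).card = n; omega⟩, ?_⟩
          have : p ∈ X \ B := by rw [hp]; exact Finset.mem_singleton_self p
          exact Finset.mem_compl.2 (Finset.mem_sdiff.1 this).2
        · show insert p (X ∩ B) = X
          rw [Finset.insert_eq, ← hp, Finset.sdiff_union_inter]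
    · rintro (⟨h1, h2⟩ | ⟨⟨S, p⟩, hq, rfl⟩)
      · refine ⟨⟨Finset.subset_univ _, h2⟩, ?_⟩
        rw [Finset.inter_eq_left.2 h1]
        omega
      · rw [Finset.mem_product, Finset.mem_powersetCard, Finset.mem_compl] at hq
        obtain ⟨⟨h1, h2⟩, h3⟩ := hq
        simp only at h1 h2 h3 ⊢
        have hpS : p ∉ S := fun hh => h3 (h1 hh)
        refine ⟨⟨Finset.subset_univ _, by rw [Finset.card_insert_of_notMem hpS, h2]⟩, ?_⟩
        rw [Finset.insert_inter_of_notMem h3, Finset.inter_eq_left.2 h1, h2]
  rw [hset, Finset.card_union_of_disjoint, Finset.card_powersetCard, Finset.card_image_of_injOn,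
    Finset.card_product, Finset.card_powersetCard, Finset.card_compl]
  · rintro ⟨S, p⟩ hq ⟨S', p'⟩ hq' heq
    rw [Finset.mem_coe, Finset.mem_product, Finset.mem_powersetCard, Finset.mem_compl] at hq hq'
    obtain ⟨⟨h1, h2⟩, h3⟩ := hq
    obtain ⟨⟨g1, g2⟩, g3⟩ := hq'
    simp only at h1 h2 h3 g1 g2 g3 heq
    have e1 : S = insert p S ∩ B := by
      rw [Finset.insert_inter_of_notMem h3, Finset.inter_eq_left.2 h1]
    have e2 : S' = insert p' S' ∩ B := by
      rw [Finset.insert_inter_of_notMem g3, Finset.inter_eq_left.2 g1]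
    have e3 : S = S' := by rw [e1, e2, heq]
    subst e3
    have e4 : p ∈ insert p' S := by rw [← heq]; exact Finset.mem_insert_self p S
    rw [Finset.mem_insert] at e4
    rcases e4 with e4 | e4
    · rw [e4]
    · exact absurd (h1 e4) h3
  · rw [Finset.disjoint_left]
    intro X hX hX'
    rw [Finset.mem_powersetCard] at hX
    rw [Finset.mem_image] at hX'
    obtain ⟨⟨S, p⟩, hq, rfl⟩ := hX'
    rw [Finset.mem_product, Finset.mem_compl] at hq
    exact hq.2 (hX.1 (Finset.mem_insert_self p S))

theorem IsBeta.count (h : IsBeta Bl k d 2) :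
    Bl.card * (k.choose (d + 3) + k.choose (d + 2) * (Fintype.card α - k)) =
      (Fintype.card α).choose (d + 3) := by
  have hcov : powersetCard (d + 3) (univ : Finset α) = Bl.biUnion (fun B =>
      (powersetCard (d + 3) (univ : Finset α)).filter (fun X => d + 2 ≤ (X ∩ B).card)) := by
    ext X
    rw [Finset.mem_biUnion]
    constructor
    · intro hX
      obtain ⟨B, ⟨hB, hBX⟩, _⟩ := h.beta X (by rw [(Finset.mem_powersetCard.1 hX).2]; omega)
      exact ⟨B, hB, Finset.mem_filter.2 ⟨hX, hBX⟩⟩
    · rintro ⟨B, _, hX⟩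
      exact (Finset.mem_filter.1 hX).1
  have hc : (Fintype.card α).choose (d + 3) = ∑ B ∈ Bl,
      ((powersetCard (d + 3) (univ : Finset α)).filter (fun X => d + 2 ≤ (X ∩ B).card)).card := by
    rw [← Finset.card_univ, ← Finset.card_powersetCard]
    conv_lhs => rw [hcov]
    apply Finset.card_biUnion
    intro B hB C hC hBC
    show Disjoint (Finset.filter _ _) (Finset.filter _ _)
    rw [Finset.disjoint_left]
    intro X hX hX'
    rw [Finset.mem_filter] at hX hX'
    obtain ⟨E, _, huni⟩ := h.beta X (by rw [(Finset.mem_powersetCard.1 hX.1).2]; omega)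
    apply hBC
    rw [huni B ⟨hB, hX.2⟩, huni C ⟨hC, hX'.2⟩]
  rw [hc]
  have hB : ∀ B ∈ Bl,
      ((powersetCard (d + 3) (univ : Finset α)).filter (fun X => d + 2 ≤ (X ∩ B).card)).card =
      k.choose (d + 3) + k.choose (d + 2) * (Fintype.card α - k) := by
    intro B hB
    have := count_near B (d + 2)
    rw [h.card B hB] at this
    exact this
  rw [Finset.sum_congr rfl hB, Finset.sum_const, smul_eq_mul]

/-- The number of blocks of the second Steiner system. -/
theorem IsBeta.stcount (h : IsBeta Bl k d i) (hi : 1 < i) (hik : i < k - d) :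
    (k - d).choose i ∣ (Fintype.card α - k).choose i := by
  obtain ⟨B, hB, _⟩ := h.exists_U hik
  have hBk := h.card B hB
  obtain ⟨U, hU, hUc⟩ := Finset.exists_subset_card_eq
    (show k - d - i + 1 ≤ B.card by rw [hBk]; omega)
  set Cs := Bl.filter (fun C => Disjoint U C ∧ (B ∩ C).card = d) with hCs
  have hcov : powersetCard i Bᶜ = Cs.biUnion (fun C => powersetCard i (C \ B)) := by
    ext T
    rw [Finset.mem_biUnion]
    constructor
    · intro hT
      rw [Finset.mem_powersetCard] at hT
      have hTB : Disjoint T B := by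
        rw [Finset.disjoint_left]
        intro a ha
        exact Finset.mem_compl.1 (hT.1 ha)
      obtain ⟨C, ⟨g1, g2, g3, g4⟩, _⟩ := h.steiner2 hi hik hB hUc hU hTB hT.2
      exact ⟨C, Finset.mem_filter.2 ⟨g1, g2, g3⟩, Finset.mem_powersetCard.2 ⟨g4, hT.2⟩⟩
    · rintro ⟨C, _, hT⟩
      rw [Finset.mem_powersetCard] at hT ⊢
      refine ⟨fun a ha => ?_, hT.2⟩
      exact Finset.mem_compl.2 (Finset.mem_sdiff.1 (hT.1 ha)).2
  have hc : (Fintype.card α - k).choose i = ∑ C ∈ Cs, (powersetCard i (C \ B)).card := by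
    rw [← hBk, ← Finset.card_compl, ← Finset.card_powersetCard, hcov]
    apply Finset.card_biUnion
    intro C hC D hD hCD
    rw [Finset.mem_coe, hCs, Finset.mem_filter] at hC hD
    show Disjoint (powersetCard i (C \ B)) (powersetCard i (D \ B))
    rw [Finset.disjoint_left]
    intro T hT hT'
    rw [Finset.mem_powersetCard] at hT hT'
    have hTB : Disjoint T B := by
      rw [Finset.disjoint_left]
      intro a ha
      exact (Finset.mem_sdiff.1 (hT.1 ha)).2
    obtain ⟨E, _, huni⟩ := h.steiner2 hi hik hB hUc hU hTB hT.2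
    apply hCD
    rw [huni C ⟨hC.1, hC.2.1, hC.2.2, hT.1⟩, huni D ⟨hD.1, hD.2.1, hD.2.2, hT'.1⟩]
  rw [hc]
  apply Finset.dvd_sum
  intro C hC
  rw [hCs, Finset.mem_filter] at hC
  have := Finset.card_sdiff_add_card_inter C B
  rw [Finset.inter_comm, hC.2.2, h.card C hC.1] at this
  rw [Finset.card_powersetCard]
  have e : (C \ B).card = k - d := by omega
  rw [e]

theorem IsBeta.four (h : IsBeta Bl k 4 i) (hi : 1 < i) (hik : i < k - 4) :
    Fintype.card α = 24 ∧ k = 8 ∧ i = 2 := by
  obtain ⟨h1, h2, h3, h4⟩ := h.main (by omega) hi hik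
  obtain ⟨⟨_, g1⟩, ⟨g2, g3⟩, ⟨_, g4⟩, _⟩ := h.main2 (by omega) hi hik
  have h5 := h.noda hik
  have h6 := h.stcount hi hik
  have hi2 : i = 2 := by omega
  subst hi2
  have h7 := h.count
  have hkv := h.kv
  have hk : k = 7 ∨ k = 8 := by omega
  generalize Fintype.card α = v at *
  generalize Bl.card = b at *
  rcases hk with rfl | rfl
  · exfalso
    have hv : v = 14 ∨ v = 16 ∨ v = 18 := by omega
    rcases hv with rfl | rfl | rfl
    · norm_num [Nat.choose] at h7
      omega
    · norm_num [Nat.choose] at h7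
      omega
    · revert h6
      decide
  · have hv : v = 18 ∨ v = 21 ∨ v = 24 := by omega
    rcases hv with rfl | rfl | rfl
    · exfalso
      revert h6
      decide
    · exfalso
      norm_num [Nat.choose] at h7
      omega
    · exact ⟨rfl, rfl, rfl⟩

end

end Pool.Agent.H27B
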